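import Pool.Agent.H422R3.C6Final
import Pool.Agent.H119R2.Kp.NT

/-!
Cycles of length 6 modulo an arbitrary odd number `k`: lower bound for `c_{6,k}` from the doubled
generalised quadrangle over a field with `q ^ 3 ≤ k`, and the upper bound `(2^(1/3) + o(1)) k^(1/3)`
for `d_{6,k}`, for all `k`.
-/

set_option autoImplicit false

namespace Y643.C6

open Finset SimpleGraph Pool.Agent.H422R3.C6

theorem QG_no_mod_odd {F : Type} [Field F] [Fintype F] {k : ℕ} (hk : Odd k) (hk6 : 6 < k)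
    (hFk : Fintype.card F ^ 3 ≤ k)
    {v : (F × F × F) ⊕ ((F × F × F) × Bool)} (p : (QG F).Walk v v) (hp : p.IsCycle)
    (hmod : p.length ≡ 6 [MOD k]) : False := by
  classical
  have h1 := walk_count p
  have h2 := sum_chi_le p.support.tail hp.support_nodup
  set S := (p.support.tail.map chi).sum
  have hL : p.length = 2 * S := by omega
  have hm : p.length % k = 6 := by
    have := hmod
    unfold Nat.ModEq at this
    rwa [Nat.mod_eq_of_lt hk6] at this
  have hdiv := Nat.div_add_mod p.length k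
  rw [hm] at hdiv
  have hj : p.length / k < 2 := by
    by_contra hcon
    have : k * 2 ≤ k * (p.length / k) := Nat.mul_le_mul_left _ (by omega)
    omega
  have h6 : p.length = 6 := by
    interval_cases h : p.length / k
    · omega
    · exfalso
      obtain ⟨t, ht⟩ := hk
      omega
  exact walk_noC6 QG_noC6 p hp h6

/-- the lower bound for the constant `c_{6,k}`, `k` odd, `k ≥ q^3` -/
theorem lower_odd {q k : ℕ} (hq : q.Prime) (hk : Odd k) (hk6 : 6 < k) (hqk : q ^ 3 ≤ k) {c : ℝ}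
    (hc : ∀ n : ℕ, 1 ≤ n → ∀ G : SimpleGraph (Fin n), c * n / 2 ≤ (G.edgeSet.ncard : ℝ) →
      ∃ (v : Fin n) (p : G.Walk v v), p.IsCycle ∧ p.length ≡ 6 [MOD k]) :
    4 / 3 * (q : ℝ) ≤ c := by
  by_contra hlt
  push Not at hlt
  have : Fact q.Prime := ⟨hq⟩
  have hcardF : Fintype.card (ZMod q) = q := ZMod.card q
  have hcard : Fintype.card ((ZMod q × ZMod q × ZMod q) ⊕ ((ZMod q × ZMod q × ZMod q) × Bool)) =
      3 * q ^ 3 := by rw [QG_card, hcardF]
  let G' := (QG (ZMod q)).overFin hcard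
  let I := (QG (ZMod q)).overFinIso hcard
  have hedges : 2 * q ^ 4 ≤ G'.edgeSet.ncard := by
    have h1 := QG_edges (F := ZMod q)
    rw [hcardF, ← Nat.card_coe_set_eq] at h1
    rw [← Nat.card_coe_set_eq]
    exact h1.trans (Nat.card_congr I.mapEdgeSet).le
  have hq0 : (0 : ℝ) < q := by exact_mod_cast hq.pos
  obtain ⟨v, p, hp, hmod⟩ := hc (3 * q ^ 3) (by
    have := Nat.pos_of_ne_zero (pow_ne_zero 3 hq.pos.ne')
    omega) G' (by
      have h1 : ((2 * q ^ 4 : ℕ) : ℝ) ≤ G'.edgeSet.ncard := by exact_mod_cast hedges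
      refine le_trans ?_ h1
      push_cast
      have h2 : (0 : ℝ) < q ^ 3 := by positivity
      nlinarith [mul_lt_mul_of_pos_right hlt h2])
  have hinj : Function.Injective (I.symm : G' →g QG (ZMod q)) := I.symm.injective
  have hp' : (p.map (I.symm : G' →g QG (ZMod q))).IsCycle :=
    (Walk.isCycle_map_iff_of_injective hinj).2 hp
  refine QG_no_mod_odd (F := ZMod q) hk hk6 (by rw [hcardF]; exact hqk) _ hp' ?_
  rw [Walk.length_map]
  exact hmod

/-- the upper bound for the number of edges of a hexagon-free graph on `n = t ^ 3` vertices -/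
theorem upper_all {κ : ℝ} (hκ : 2 < κ ^ 3) (hκ0 : 0 < κ) : ∃ K : ℕ, ∀ n : ℕ, K ≤ n → ∀ t : ℝ,
    0 ≤ t → t ^ 3 = n → ∀ H : SimpleGraph (Fin n),
    (¬ ∃ (v : Fin n) (p : H.Walk v v), p.IsCycle ∧ p.length = 6) →
    2 * (H.edgeSet.ncard : ℝ) / n ≤ κ * t := by
  classical
  -- choose `κ' < κ` with `κ' ^ 3 > 2`
  obtain ⟨κ', hκ'0, hκ'κ, hκ'2⟩ : ∃ κ' : ℝ, 0 < κ' ∧ κ' < κ ∧ 2 < κ' ^ 3 := by
    have hcont : ContinuousAt (fun x : ℝ => x ^ 3) κ := by fun_prop
    have h1 : ∀ᶠ x in nhds κ, 2 < x ^ 3 := hcont.eventually (lt_mem_nhds hκ)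
    have h2 : ∀ᶠ x in nhds κ, 0 < x := lt_mem_nhds hκ0
    have h3 := (h1.and h2).filter_mono (nhdsWithin_le_nhds (s := Set.Iio κ))
    have h4 : ∀ᶠ x in nhdsWithin κ (Set.Iio κ), x < κ := self_mem_nhdsWithin
    obtain ⟨x, ⟨hx1, hx2⟩, hx3⟩ := (h3.and h4).exists
    exact ⟨x, hx2, hx3, hx1⟩
  obtain ⟨m, hm⟩ := exists_nat_gt (40 / (κ' ^ 3 - 2))
  set D : ℕ := m + 21 with hD
  have hDR : (D : ℝ) = m + 21 := by rw [hD]; push_cast; ring
  have hpos : 0 < κ' ^ 3 - 2 := by linarith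
  have hDk : 2 * (D : ℝ) ≤ κ' ^ 3 * (D - 20) := by
    rw [div_lt_iff₀ hpos] at hm
    rw [hDR]
    nlinarith
  obtain ⟨M, hM⟩ := exists_nat_gt (2 * (D : ℝ) / (κ - κ') + 1)
  refine ⟨M ^ 3, fun n hn t ht0 htn H hH => ?_⟩
  have hN := noC6_of_walk hH
  have htM : (M : ℝ) ≤ t := by
    have h1 : (M : ℝ) ^ 3 ≤ t ^ 3 := by
      rw [htn]; exact_mod_cast hn
    exact le_of_pow_le_pow_left₀ (by norm_num) ht0 h1
  have hkk : 0 < κ - κ' := by linarith
  have hbig : 2 * (D : ℝ) ≤ (κ - κ') * t := by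
    have h1 : 2 * (D : ℝ) / (κ - κ') < t := by linarith
    rw [div_lt_iff₀ hkk] at h1
    linarith
  have ht : 0 < t := by
    have hD0 : (0 : ℝ) ≤ D := by positivity
    have : 0 ≤ 2 * (D : ℝ) / (κ - κ') := by positivity
    linarith
  have hn0 : (0 : ℝ) < n := by rw [← htn]; positivity
  have hsum : ∑ y, (H.degree y : ℝ) = 2 * (H.edgeSet.ncard : ℝ) := by
    have h1 := H.sum_degrees_eq_twice_card_edges
    have h2 : H.edgeSet.ncard = H.edgeFinset.card := by
      rw [← SimpleGraph.coe_edgeFinset, Set.ncard_coe_finset]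
    rw [h2]
    exact_mod_cast h1
  rw [div_le_iff₀ hn0]
  by_contra hcon
  push Not at hcon
  rw [← hsum, ← htn] at hcon
  have ht3 : 0 < t ^ 3 := by positivity
  have ht4 : 0 < t ^ 4 := by positivity
  have hD0 : (0 : ℝ) ≤ D := by positivity
  have h5 : κ' * t ^ 4 < ∑ y, (H.degree y : ℝ) - 2 * D * t ^ 3 := by
    have h6 : 2 * (D : ℝ) * t ^ 3 ≤ (κ - κ') * t * t ^ 3 :=
      mul_le_mul_of_nonneg_right hbig ht3.le
    have h7 : κ * t * t ^ 3 = κ' * t ^ 4 + (κ - κ') * t * t ^ 3 := by ring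
    linarith
  have hb := bound_general hN D (by
    rw [Fintype.card_fin, ← htn]
    have : 0 < κ' * t ^ 4 := by positivity
    linarith) (by omega)
  rw [Fintype.card_fin, ← htn] at hb
  have h8 : (κ' * t ^ 4) ^ 3 < (∑ y, (H.degree y : ℝ) - 2 * D * t ^ 3) ^ 3 :=
    pow_lt_pow_left₀ h5 (by positivity) (by norm_num)
  have hD20 : (0 : ℝ) < (D : ℝ) - 20 := by
    rw [hDR]
    have : (0 : ℝ) ≤ m := by positivity
    linarith
  have h9 := mul_lt_mul_of_pos_right h8 hD20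
  have h10 : (κ' * t ^ 4) ^ 3 * (D - 20) = κ' ^ 3 * (D - 20) * t ^ 12 := by ring
  have h11 : 2 * (D : ℝ) * (t ^ 3) ^ 4 = 2 * (D : ℝ) * t ^ 12 := by ring
  rw [h10] at h9
  rw [h11] at hb
  have h12 : 0 < t ^ 12 := by positivity
  have h13 := mul_le_mul_of_nonneg_right hDk h12.le
  linarith

end Y643.C6
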